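import Pool.Agent.FLT99.Bridge

/-!
# The structure of fibre-like smooth toric Fano varieties

Let `V` be the vertex set of a smooth Fano polytope in `ℤ^n` which is fibre-like (`t - k = 1`).
The zero-sum primitive collections of `V` form a partition of `V`; they all have the same size `s`
and form one orbit of `Aut(Δ)`; each of them meets every orbit of `Aut(Δ)` on `V`; no nonempty
multiset of vertices with sum zero has fewer than `s` elements; and the number `t` of orbits is at
most the Fano index. If `Aut(Δ)` is not transitive on `V`, then `n ≥ 16`, the Picard number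
`|V| - n` is at least `6`, there are at least three zero-sum primitive collections, and `s` is at
least four times the Fano index.
-/

namespace Pool.Agent.Results.MP_62d779_ag.ZeroSumCollections

open Pool.Agent.FBL

theorem result (n : ℕ) (V : Finset (Fin n → ℤ)) (hV : IsSmoothFano V)
    (hfib : numOrbits V = invRank V + 1) :
    ∃ s : ℕ,
      (∀ v ∈ V, ∃! K, IsZeroSumPrimitive V K ∧ v ∈ K) ∧
      (∀ K, IsZeroSumPrimitive V K → K.card = s ∧
        (∀ L, IsZeroSumPrimitive V L → Carries V K L) ∧ ∀ v ∈ V, ∃ w ∈ K, w ∈ orbitOf V v) ∧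
      (∀ a : (Fin n → ℤ) → ℕ, ∑ v ∈ V, a v • v = 0 → (∃ v ∈ V, a v ≠ 0) →
        s ≤ ∑ v ∈ V, a v) ∧
      (∃ (q : ℕ) (m : (Fin n → ℤ) →+ ℤ), numOrbits V ≤ q ∧ ∀ v ∈ V, (q : ℤ) ∣ m v - 1) ∧
      (¬ VertexTransitive V → 16 ≤ n ∧ n + 6 ≤ V.card ∧ 3 * s ≤ V.card ∧
        ∀ (r : ℕ) (m : (Fin n → ℤ) →+ ℤ), (∀ v ∈ V, (r : ℤ) ∣ m v - 1) → 4 * r ≤ s) :=
  FLT99.main hV hfib

end Pool.Agent.Results.MP_62d779_ag.ZeroSumCollections
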